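import Pool.Agent.H1.LD.D

/-!
Parts of ROW LD/Lk: `sE_hol`, `sY_hol`, `sE_inj`.
-/

set_option autoImplicit false

namespace LD1

open Complex Set Filter Topology MeasureTheory EW1 EX1 ND1
open scoped ComplexConjugate ContDiff Real

/-- the power series `∑ f_n u^(n+1)`. -/
noncomputable def Lk_P (f : ℕ → ℂ) (u : ℂ) : ℂ := ∑' n : ℕ, f n * u ^ (n + 1)

theorem Lk_norm_sum {f : ℕ → ℂ} {t C s : ℝ} (h : ∀ n, ‖f n‖ * t ^ n ≤ C) (hs : 0 ≤ s)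
    (hst : s < t) : Summable (fun n : ℕ => ‖f n‖ * s ^ (n + 1)) := by
  have ht : 0 < t := hs.trans_lt hst
  have h1 : Summable (fun n : ℕ => C * s * (s / t) ^ n) :=
    (summable_geometric_of_lt_one (by positivity) ((div_lt_one ht).mpr hst)).mul_left _
  refine Summable.of_nonneg_of_le (fun n => by positivity) (fun n => ?_) h1
  calc ‖f n‖ * s ^ (n + 1) = (‖f n‖ * t ^ n) * (s * (s / t) ^ n) := by
        rw [div_pow, pow_succ]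
        field_simp
    _ ≤ C * (s * (s / t) ^ n) := by
        refine mul_le_mul_of_nonneg_right (h n) (by positivity)
    _ = C * s * (s / t) ^ n := by ring

theorem Lk_P_sum {f : ℕ → ℂ} {t C : ℝ} (h : ∀ n, ‖f n‖ * t ^ n ≤ C) {u : ℂ} (hu : ‖u‖ < t) :
    Summable (fun n : ℕ => f n * u ^ (n + 1)) := by
  refine Summable.of_norm ?_
  have h1 := Lk_norm_sum h (norm_nonneg u) hu
  refine h1.congr fun n => ?_
  rw [norm_mul, norm_pow]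

theorem Lk_P_diff {f : ℕ → ℂ} {t C : ℝ} (h : ∀ n, ‖f n‖ * t ^ n ≤ C) {u : ℂ} (hu : ‖u‖ < t) :
    DifferentiableAt ℂ (Lk_P f) u := by
  obtain ⟨s, hs1, hs2⟩ := exists_between hu
  have hs : 0 ≤ s := (norm_nonneg u).trans hs1.le
  have h1 : DifferentiableOn ℂ (fun w => ∑' n : ℕ, f n * w ^ (n + 1)) (Metric.ball 0 s) := by
    refine differentiableOn_tsum_of_summable_norm (Lk_norm_sum h hs hs2)
      (fun n => by fun_prop) Metric.isOpen_ball fun n w hw => ?_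
    rw [norm_mul, norm_pow]
    have hw' : ‖w‖ ≤ s := (mem_ball_zero_iff.mp hw).le
    gcongr
  exact (h1 u (mem_ball_zero_iff.mpr hs1)).differentiableAt
    (Metric.isOpen_ball.mem_nhds (mem_ball_zero_iff.mpr hs1))

theorem Lk_P_zero (f : ℕ → ℂ) : Lk_P f 0 = 0 := by
  unfold Lk_P
  simp

/-- summability and differentiability at `u`. -/
structure Lk_Good (f : ℕ → ℂ) (u : ℂ) : Prop where
  sm : Summable (fun n : ℕ => f n * u ^ (n + 1))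
  df : DifferentiableAt ℂ (Lk_P f) u

theorem Lk_good_Gr {f : ℕ → ℂ} (hf : Gr f) {u : ℂ} (hu : ‖u‖ < 1) : Lk_Good f u := by
  obtain ⟨s, hs1, hs2⟩ := exists_between hu
  obtain ⟨C, hC⟩ := hf s ((norm_nonneg u).trans_lt hs1) hs2
  exact ⟨Lk_P_sum hC hs1, Lk_P_diff hC hs1⟩

theorem Lk_good_Dc {μ : ℂ} {f : ℕ → ℂ} (hf : Dc μ f) {u : ℂ} (hu : ‖u‖ * ‖μ‖ < 1) :
    Lk_Good f u := by
  have h1 : ∃ s : ℝ, ‖u‖ < s ∧ s * ‖μ‖ < 1 := by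
    have h2 : ContinuousWithinAt (fun s : ℝ => s * ‖μ‖) (Set.Ioi ‖u‖) ‖u‖ :=
      (continuous_id.mul continuous_const).continuousWithinAt
    have h3 : ∀ᶠ s in 𝓝[>] ‖u‖, s * ‖μ‖ < 1 := h2.eventually (gt_mem_nhds hu)
    obtain ⟨s, hs, hs'⟩ := (h3.and self_mem_nhdsWithin).exists
    exact ⟨s, hs', hs⟩
  obtain ⟨s, hs1, hs2⟩ := h1
  obtain ⟨C, hC⟩ := hf s ((norm_nonneg u).trans_lt hs1) hs2
  exact ⟨Lk_P_sum hC hs1, Lk_P_diff hC hs1⟩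

theorem Lk_sE {μ : ℂ} {f : ℕ → ℂ} {w : ℂ} (h1 : Lk_Good f w) (h2 : Lk_Good f (μ * w⁻¹)) :
    sE μ f w = Lk_P f w - Lk_P f (μ * w⁻¹) ∧
      Summable (fun n : ℕ => f n * (w ^ (n + 1) - (μ * w⁻¹) ^ (n + 1))) := by
  have h3 : (fun n : ℕ => f n * (w ^ (n + 1) - (μ * w⁻¹) ^ (n + 1))) =
      fun n : ℕ => f n * w ^ (n + 1) - f n * (μ * w⁻¹) ^ (n + 1) := by
    funext n
    ring
  refine ⟨?_, ?_⟩
  · unfold sE Lk_P
    rw [h3, h1.sm.tsum_sub h2.sm]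
  · rw [h3]
    exact h1.sm.sub h2.sm

theorem Lk_sY {μ y : ℂ} {f : ℕ → ℂ} {w : ℂ} (h1 : Lk_Good f w) (h2 : Lk_Good f (μ * w⁻¹)) :
    sY μ y f w = y + (Lk_P f w + Lk_P f (μ * w⁻¹)) ∧
      Summable (fun n : ℕ => f n * (w ^ (n + 1) + (μ * w⁻¹) ^ (n + 1))) := by
  have h3 : (fun n : ℕ => f n * (w ^ (n + 1) + (μ * w⁻¹) ^ (n + 1))) =
      fun n : ℕ => f n * w ^ (n + 1) + f n * (μ * w⁻¹) ^ (n + 1) := by
    funext n
    ring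
  refine ⟨?_, ?_⟩
  · unfold sY Lk_P
    rw [h3, h1.sm.tsum_add h2.sm]
  · rw [h3]
    exact h1.sm.add h2.sm

theorem Lk_inv_diff {μ w : ℂ} (hw : w ≠ 0) : DifferentiableAt ℂ (fun v : ℂ => μ * v⁻¹) w :=
  (differentiableAt_inv hw).const_mul μ

theorem sE_hol {μ : ℂ} (hμ : ‖μ‖ < 1) {f : ℕ → ℂ} (hf : Gr f) : DifferentiableOn ℂ (sE μ f) {w | ‖μ‖ < ‖w‖ ∧ ‖w‖ < 1} ∧
    ∀ w : ℂ, ‖μ‖ < ‖w‖ → ‖w‖ < 1 → Summable (fun n : ℕ => f n * (w ^ (n + 1) - (μ * w⁻¹) ^ (n + 1))) := by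
  have hw0 : ∀ w : ℂ, ‖μ‖ < ‖w‖ → w ≠ 0 := fun w h => norm_pos_iff.mp ((norm_nonneg μ).trans_lt h)
  have hi : ∀ w : ℂ, ‖μ‖ < ‖w‖ → ‖μ * w⁻¹‖ < 1 := by
    intro w h
    have hpos : 0 < ‖w‖ := (norm_nonneg μ).trans_lt h
    rw [norm_mul, norm_inv, ← div_eq_mul_inv, div_lt_one hpos]
    exact h
  have hg1 : ∀ w : ℂ, ‖w‖ < 1 → Lk_Good f w := fun w h => Lk_good_Gr hf h
  refine ⟨?_, fun w h1 h2 => (Lk_sE (hg1 w h2) (hg1 _ (hi w h1))).2⟩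
  have h3 : DifferentiableOn ℂ (fun w => Lk_P f w - Lk_P f (μ * w⁻¹)) {w | ‖μ‖ < ‖w‖ ∧ ‖w‖ < 1} := by
    rintro w ⟨h1, h2⟩
    refine ((hg1 w h2).df.sub ?_).differentiableWithinAt
    exact DifferentiableAt.comp w (f := fun v : ℂ => μ * v⁻¹) (hg1 _ (hi w h1)).df (Lk_inv_diff (hw0 w h1))
  refine h3.congr fun w hw => ?_
  exact (Lk_sE (hg1 w hw.2) (hg1 _ (hi w hw.1))).1

theorem sY_hol {μ : ℂ} (hμ : ‖μ‖ < 1) (y : ℂ) {g : ℕ → ℂ} (hg : Dc μ g) :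
    DifferentiableOn ℂ (sY μ y g) {w | ‖μ‖ ^ 2 < ‖w‖ ∧ ‖w‖ * ‖μ‖ < 1} ∧ DifferentiableOn ℂ (sE μ g) {w | ‖μ‖ ^ 2 < ‖w‖ ∧ ‖w‖ * ‖μ‖ < 1} ∧
    ∀ w : ℂ, ‖μ‖ ^ 2 < ‖w‖ → ‖w‖ * ‖μ‖ < 1 → Summable (fun n : ℕ => g n * (w ^ (n + 1) + (μ * w⁻¹) ^ (n + 1))) ∧
      Summable (fun n : ℕ => g n * (w ^ (n + 1) - (μ * w⁻¹) ^ (n + 1))) := by
  have hw0 : ∀ w : ℂ, ‖μ‖ ^ 2 < ‖w‖ → w ≠ 0 := fun w h =>
    norm_pos_iff.mp ((by positivity : (0 : ℝ) ≤ ‖μ‖ ^ 2).trans_lt h)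
  have hi : ∀ w : ℂ, ‖μ‖ ^ 2 < ‖w‖ → ‖μ * w⁻¹‖ * ‖μ‖ < 1 := by
    intro w h
    have hpos : 0 < ‖w‖ := (by positivity : (0 : ℝ) ≤ ‖μ‖ ^ 2).trans_lt h
    rw [norm_mul, norm_inv]
    have h1 : ‖μ‖ * ‖w‖⁻¹ * ‖μ‖ = ‖μ‖ ^ 2 / ‖w‖ := by
      rw [div_eq_mul_inv]
      ring
    rw [h1, div_lt_one hpos]
    exact h
  have hg1 : ∀ w : ℂ, ‖w‖ * ‖μ‖ < 1 → Lk_Good g w := fun w h => Lk_good_Dc hg h
  refine ⟨?_, ?_, fun w h1 h2 => ⟨(Lk_sY (y := y) (hg1 w h2) (hg1 _ (hi w h1))).2,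
    (Lk_sE (hg1 w h2) (hg1 _ (hi w h1))).2⟩⟩
  · have h3 : DifferentiableOn ℂ (fun w => y + (Lk_P g w + Lk_P g (μ * w⁻¹)))
        {w | ‖μ‖ ^ 2 < ‖w‖ ∧ ‖w‖ * ‖μ‖ < 1} := by
      rintro w ⟨h1, h2⟩
      refine (((hg1 w h2).df.add ?_).const_add y).differentiableWithinAt
      exact DifferentiableAt.comp w (f := fun v : ℂ => μ * v⁻¹) (hg1 _ (hi w h1)).df (Lk_inv_diff (hw0 w h1))
    refine h3.congr fun w hw => ?_
    exact (Lk_sY (hg1 w hw.2) (hg1 _ (hi w hw.1))).1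
  · have h3 : DifferentiableOn ℂ (fun w => Lk_P g w - Lk_P g (μ * w⁻¹))
        {w | ‖μ‖ ^ 2 < ‖w‖ ∧ ‖w‖ * ‖μ‖ < 1} := by
      rintro w ⟨h1, h2⟩
      refine ((hg1 w h2).df.sub ?_).differentiableWithinAt
      exact DifferentiableAt.comp w (f := fun v : ℂ => μ * v⁻¹) (hg1 _ (hi w h1)).df (Lk_inv_diff (hw0 w h1))
    refine h3.congr fun w hw => ?_
    exact (Lk_sE (hg1 w hw.2) (hg1 _ (hi w hw.1))).1

/-- uniqueness of the coefficients of a power series. -/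
theorem Lk_P_inj {f : ℕ → ℂ} (hf : Gr f) (h : ∀ u : ℂ, ‖u‖ < 1 → Lk_P f u = 0) (n : ℕ) :
    f n = 0 := by
  let c : ℕ → ℂ := fun n => match n with
    | 0 => 0
    | n + 1 => f n
  let p : FormalMultilinearSeries ℂ ℂ ℂ := FormalMultilinearSeries.ofScalars ℂ c
  have hp : HasFPowerSeriesAt (0 : ℂ → ℂ) p 0 := by
    rw [hasFPowerSeriesAt_iff]
    filter_upwards [Metric.ball_mem_nhds (0 : ℂ) one_pos] with z hz
    have hz' : ‖z‖ < 1 := mem_ball_zero_iff.mp hz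
    have h1 := (Lk_good_Gr hf hz').sm.hasSum
    have h2 : ∑' n : ℕ, f n * z ^ (n + 1) = 0 := h z hz'
    rw [h2] at h1
    have h3 : HasSum (fun n : ℕ => z ^ n • c n) 0 := by
      rw [← hasSum_nat_add_iff' 1]
      simp only [Finset.range_one, Finset.sum_singleton]
      have h4 : z ^ 0 • c 0 = 0 := by
        change z ^ 0 • (0 : ℂ) = 0
        rw [smul_zero]
      rw [h4, sub_zero]
      refine h1.congr_fun fun n => ?_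
      change z ^ (n + 1) • f n = f n * z ^ (n + 1)
      rw [smul_eq_mul, mul_comm]
    simp only [p, FormalMultilinearSeries.coeff_ofScalars]
    exact h3
  have h5 := hp.eq_zero
  have h6 : p.coeff (n + 1) = 0 := by rw [h5]; rfl
  rw [FormalMultilinearSeries.coeff_ofScalars] at h6
  exact h6

theorem sE_inj {μ : ℂ} (hμ : ‖μ‖ < 1) {f : ℕ → ℂ} (hf : Gr f) (h : ∀ w : ℂ, ‖μ‖ < ‖w‖ → ‖w‖ < 1 → sE μ f w = 0) (n : ℕ) : f n = 0 := by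
  classical
  have hi : ∀ w : ℂ, ‖μ‖ < ‖w‖ → ‖μ * w⁻¹‖ < 1 := by
    intro w h
    have hpos : 0 < ‖w‖ := (norm_nonneg μ).trans_lt h
    rw [norm_mul, norm_inv, ← div_eq_mul_inv, div_lt_one hpos]
    exact h
  have hw0 : ∀ w : ℂ, ‖μ‖ < ‖w‖ → w ≠ 0 := fun w h => norm_pos_iff.mp ((norm_nonneg μ).trans_lt h)
  have hg1 : ∀ w : ℂ, ‖w‖ < 1 → Lk_Good f w := fun w h => Lk_good_Gr hf h
  have heq : ∀ w : ℂ, ‖μ‖ < ‖w‖ → ‖w‖ < 1 → Lk_P f w = Lk_P f (μ * w⁻¹) := by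
    intro w h1 h2
    have h3 := h w h1 h2
    rw [(Lk_sE (hg1 w h2) (hg1 _ (hi w h1))).1] at h3
    exact sub_eq_zero.mp h3
  let G : ℂ → ℂ := fun w => if ‖w‖ < 1 then Lk_P f w else Lk_P f (μ * w⁻¹)
  have hG1 : ∀ w : ℂ, ‖w‖ < 1 → G w = Lk_P f w := fun w hw => if_pos hw
  have hG2 : ∀ w : ℂ, ‖μ‖ < ‖w‖ → G w = Lk_P f (μ * w⁻¹) := by
    intro w hw
    by_cases h1 : ‖w‖ < 1
    · rw [hG1 w h1, heq w hw h1]
    · exact if_neg h1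
  have hGd : Differentiable ℂ G := by
    intro w
    by_cases h1 : ‖w‖ < 1
    · have h2 : G =ᶠ[𝓝 w] Lk_P f := by
        filter_upwards [(isOpen_lt continuous_norm continuous_const).mem_nhds h1] with v hv
        exact hG1 v hv
      exact (hg1 w h1).df.congr_of_eventuallyEq h2
    · have h3 : ‖μ‖ < ‖w‖ := hμ.trans_le (not_lt.mp h1)
      have h2 : G =ᶠ[𝓝 w] fun v => Lk_P f (μ * v⁻¹) := by
        filter_upwards [(isOpen_lt continuous_const continuous_norm).mem_nhds h3] with v hv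
        exact hG2 v hv
      refine DifferentiableAt.congr_of_eventuallyEq ?_ h2
      exact DifferentiableAt.comp w (f := fun v : ℂ => μ * v⁻¹) (hg1 _ (hi w h3)).df (Lk_inv_diff (hw0 w h3))
  have hlim : Tendsto G (cocompact ℂ) (𝓝 0) := by
    have h1 : Tendsto (fun v : ℂ => μ * v⁻¹) (cocompact ℂ) (𝓝 0) := by
      have h2 := (tendsto_inv₀_cobounded (α := ℂ)).const_mul μ
      rw [mul_zero, Metric.cobounded_eq_cocompact] at h2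
      exact h2
    have h3 : Tendsto (fun v : ℂ => Lk_P f (μ * v⁻¹)) (cocompact ℂ) (𝓝 0) := by
      have h4 : ContinuousAt (Lk_P f) 0 := (hg1 0 (by rw [norm_zero]; exact one_pos)).df.continuousAt
      have h5 := h4.tendsto.comp h1
      rw [Lk_P_zero] at h5
      exact h5
    refine h3.congr' ?_
    have h6 : ∀ᶠ v : ℂ in cocompact ℂ, ‖μ‖ < ‖v‖ := by
      have h7 : Tendsto (fun v : ℂ => ‖v‖) (cocompact ℂ) atTop := tendsto_norm_cocompact_atTop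
      exact h7.eventually (eventually_gt_atTop _)
    filter_upwards [h6] with v hv
    exact (hG2 v hv).symm
  have hG0 : ∀ w, G w = 0 := fun w => hGd.apply_eq_of_tendsto_cocompact w hlim
  refine Lk_P_inj hf (fun u hu => ?_) n
  rw [← hG1 u hu, hG0]

end LD1
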